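import Mathlib
import Pool.Agent.Lib.MP_0a3467_an.Flow

set_option autoImplicit false

namespace Pool.Agent.Variants.MP_0a3467_an.NoRecurrence

open MeasureTheory
open Pool.Agent.Lib.MP_0a3467_an

/-- For every `l ≥ 2` there are `l + 1` multiplicative actions on one standard probability space
and a set `A` of positive measure all of whose linear-pattern return sets are null. -/
theorem result (l : ℕ) (hl : 2 ≤ l) :
    ∃ (X : Type) (_ : MeasurableSpace X) (_ : StandardBorelSpace X) (μ : Measure X)
      (_ : IsProbabilityMeasure μ) (T : Fin (l + 1) → ℕ → X ≃ᵐ X) (A : Set X),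
      (∀ j n, 1 ≤ n → MeasurePreserving (T j n) μ μ) ∧
      (∀ j x, T j 1 x = x) ∧
      (∀ j m n x, 1 ≤ m → 1 ≤ n → T j (m * n) x = T j m (T j n x)) ∧
      MeasurableSet A ∧ 0 < μ A ∧
      ∀ m n : ℕ, 1 ≤ m → 1 ≤ n → μ (⋂ j : Fin (l + 1), T j (m + j.val * n) ⁻¹' A) = 0 := by
  let T : Fin (l + 1) → ℕ → Sp ≃ᵐ Sp := fun j n =>
    if j.val = 2 then flipE.trans ((flowE (Real.logb 4 n)).trans flipE) else flowE (Real.logb 4 n)
  have hT1 : ∀ j n x, j.val = 2 → T j n x = flp (flow (Real.logb 4 n) (flp x)) := by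
    intro j n x hj
    simp only [T, if_pos hj]
    rfl
  have hT2 : ∀ j n x, j.val ≠ 2 → T j n x = flow (Real.logb 4 n) x := by
    intro j n x hj
    simp only [T, if_neg hj]
    rfl
  have hlog : ∀ m n : ℕ, 1 ≤ m → 1 ≤ n →
      Real.logb 4 ((m * n : ℕ) : ℝ) = Real.logb 4 m + Real.logb 4 n := by
    intro m n hm hn
    rw [Nat.cast_mul, Real.logb_mul (by positivity) (by positivity)]
  have h2 : Real.logb 4 2 = 1 / 2 := by
    rw [Real.logb, show (4 : ℝ) = 2 ^ 2 by norm_num, Real.log_pow]
    have := Real.log_pos (by norm_num : (1 : ℝ) < 2)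
    field_simp
    norm_num
  refine ⟨Sp, inferInstance, inferInstance, mu, inferInstance, T, setA, ?_, ?_, ?_,
    measurableSet_setA, mu_setA_pos, ?_⟩
  · intro j n _
    by_cases hj : j.val = 2
    · have : ⇑(T j n) = flp ∘ flow (Real.logb 4 n) ∘ flp := funext fun x => hT1 j n x hj
      rw [this]
      exact flip_pres.comp ((flow_pres _).comp flip_pres)
    · have : ⇑(T j n) = flow (Real.logb 4 n) := funext fun x => hT2 j n x hj
      rw [this]
      exact flow_pres _
  · intro j x
    by_cases hj : j.val = 2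
    · rw [hT1 j 1 x hj]; simp [flow_zero, flp_flp]
    · rw [hT2 j 1 x hj]; simp [flow_zero]
  · intro j m n x hm hn
    by_cases hj : j.val = 2
    · rw [hT1 _ _ _ hj, hT1 _ _ _ hj, hT1 _ _ _ hj, flp_flp, hlog m n hm hn, flow_add]
    · rw [hT2 _ _ _ hj, hT2 _ _ _ hj, hT2 _ _ _ hj, hlog m n hm hn, flow_add]
  · intro m n hm hn
    have : (⋂ j : Fin (l + 1), T j (m + j.val * n) ⁻¹' setA) = ∅ := by
      rw [Set.eq_empty_iff_forall_notMem]
      intro x hx
      rw [Set.mem_iInter] at hx
      have a1 := hx ⟨1, by omega⟩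
      have a2 := hx ⟨2, by omega⟩
      rw [Set.mem_preimage, hT2 _ _ _ (by simp)] at a1
      rw [Set.mem_preimage, hT1 _ _ _ rfl] at a2
      have hm' : (1 : ℝ) ≤ m := by exact_mod_cast hm
      have hn' : (1 : ℝ) ≤ n := by exact_mod_cast hn
      refine disjoint_key _ _ ?_ ?_ ?_ x a1 a2
      · rw [← h2]
        apply Real.logb_le_logb_of_le (by norm_num) (by norm_num)
        push_cast
        linarith
      · apply Real.logb_le_logb_of_le (by norm_num) (by positivity)
        push_cast
        linarith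
      · rw [← h2, ← Real.logb_mul (by positivity) (by norm_num)]
        apply Real.logb_le_logb_of_le (by norm_num) (by positivity)
        push_cast
        linarith
    rw [this, measure_empty]

end Pool.Agent.Variants.MP_0a3467_an.NoRecurrence
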